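import Pool.Agent.Lib.MP_c7af3c_ag.T2C.IfaceB
import Pool.Agent.Lib.MP_c7af3c_ag.T2C.H11.Hall

/-!
# MP_c7af3c_ag, project T2C: the conic is unique (row UNIQ, helper60)
-/

set_option autoImplicit false

namespace Pool.Agent.T2C.H60

open MvPolynomial Pool.Agent.Edge.H9.Forms
open Pool.Agent.T2 (S3 mulS mem_mulS)
open Pool.Agent.T2.H60 (finrank_mulS finite_mulS inf_mulS mulS_mul_le)
open Pool.Agent.T2C.H8 (T3 mulC sm HomC mem_mulC)
open Pool.Agent.T2C.H11 (finrank_piS finite_piS pi_le)

section

variable {K : Type} [Field K] {c : ℕ}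

theorem ST_eq (r : Fin c → ℕ) : ST K r = Submodule.pi Set.univ fun m => S3 K (r m) := by
  ext g
  rw [mem_ST, Submodule.mem_pi]
  exact ⟨fun h m _ => h m, fun h m => h m trivial⟩

theorem mulC_eq (q : MvPolynomial (Fin 3) K) (r : Fin c → ℕ) :
    mulC q r = Submodule.pi Set.univ fun m => mulS q (r m) := by
  ext g
  rw [mem_mulC, Submodule.mem_pi]
  constructor
  · rintro ⟨b, hb, rfl⟩ m _
    exact mem_mulS.2 ⟨b m, hb m, rfl⟩
  · intro h
    choose b hb hb2 using fun m => mem_mulS.1 (h m trivial)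
    exact ⟨b, hb, funext hb2⟩

theorem finrank_ST (r : Fin c → ℕ) :
    Module.finrank K (ST K r) = ∑ m, (r m + 2).choose 2 := by
  rw [ST_eq, finrank_piS]
  exact Finset.sum_congr rfl fun m _ => finrank_hom K (r m)

theorem finite_ST (r : Fin c → ℕ) : FiniteDimensional K (ST K r) := by
  rw [ST_eq]; infer_instance

theorem finrank_mulC {q : MvPolynomial (Fin 3) K} (hq : q ≠ 0) (r : Fin c → ℕ) :
    Module.finrank K (mulC q r) = ∑ m, (r m + 2).choose 2 := by
  rw [mulC_eq, finrank_piS]
  exact Finset.sum_congr rfl fun m _ => finrank_mulS hq (r m)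

instance finite_mulC (q : MvPolynomial (Fin 3) K) (r : Fin c → ℕ) :
    FiniteDimensional K (mulC q r) := by
  rw [mulC_eq]; infer_instance

theorem sup_mulC_eq (q q' : MvPolynomial (Fin 3) K) (r : Fin c → ℕ) :
    mulC q r ⊔ mulC q' r = Submodule.pi Set.univ fun m => mulS q (r m) ⊔ mulS q' (r m) := by
  rw [mulC_eq, mulC_eq]
  apply le_antisymm
  · refine sup_le ?_ ?_
    · intro g hg m hm
      exact le_sup_left (a := mulS q (r m)) (hg m hm)
    · intro g hg m hm
      exact le_sup_right (a := mulS q (r m)) (hg m hm)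
  · intro g hg
    choose u hu v hv huv using fun m => Submodule.mem_sup.1 (hg m trivial)
    have e : g = u + v := funext fun m => (huv m).symm
    rw [e]
    exact Submodule.add_mem_sup (fun m _ => hu m) (fun m _ => hv m)

/-- the multiples of two forms, every degree -/
theorem sup_mulS' {g a b : MvPolynomial (Fin 3) K} (hg : g ≠ 0) (hab : IsRelPrime a b)
    {e : ℕ} (ha : a.IsHomogeneous e) (ha0 : a ≠ 0) (hb0 : b ≠ 0) (r : ℕ) :
    (r + 2).choose 2 + (r + 2).choose 2 ≤ (if e ≤ r then (r - e + 2).choose 2 else 0) +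
      Module.finrank K (mulS (g * a) r ⊔ mulS (g * b) r :
        Submodule K (MvPolynomial (Fin 3) K)) := by
  by_cases her : e ≤ r
  · rw [if_pos her]
    exact Pool.Agent.T2.H60.sup_mulS hg hab ha ha0 hb0 her
  · rw [if_neg her]
    have h1 := Submodule.finrank_sup_add_finrank_inf_eq (mulS (g * a) r) (mulS (g * b) r)
    rw [finrank_mulS (mul_ne_zero hg ha0), finrank_mulS (mul_ne_zero hg hb0)] at h1
    have h2 : mulS (g * a) r ⊓ mulS (g * b) r = ⊥ := by
      rw [eq_bot_iff]
      rintro x ⟨h1, h2⟩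
      obtain ⟨u, hu, rfl⟩ := mem_mulS.1 h1
      obtain ⟨v, hv, hv2⟩ := mem_mulS.1 h2
      have h3 : b * v = a * u := by
        apply mul_left_cancel₀ hg
        rw [← mul_assoc, ← mul_assoc, hv2]
      have h4 : a ∣ v := hab.dvd_of_dvd_mul_left (by rw [h3]; exact dvd_mul_right a u)
      obtain ⟨w, rfl⟩ := h4
      by_cases hw : a * w = 0
      · rw [Submodule.mem_bot, ← hv2, hw, mul_zero]
      · exact absurd (hom_quot hv ha hw).1 her
    rw [h2, finrank_bot] at h1
    omega

end

theorem choose_two (r : ℕ) : 2 * (r + 2).choose 2 = (r + 2) * (r + 1) := by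
  rw [Nat.choose_two_right]
  have h : 2 ∣ (r + 2) * (r + 2 - 1) := by
    rw [show r + 2 - 1 = r + 1 by omega, mul_comm]
    exact (Nat.even_mul_succ_self (r + 1)).two_dvd
  rw [Nat.mul_div_cancel' h]
  congr 1

theorem uniq : UniqStatement := by
  intro K _ _ n c d y R hTy hc hR q q' hq hq' hq0 h1 h2
  by_cases hq'0 : q' = 0
  · exact ⟨0, by rw [hq'0, map_zero, zero_mul]⟩
  obtain ⟨a, b, g, hab, hga, hgb⟩ :=
    UniqueFactorizationMonoid.exists_reduced_factors q hq0 q'
  have hg0 : g ≠ 0 := by rintro rfl; rw [zero_mul] at hga; exact hq0 hga.symm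
  have ha0 : a ≠ 0 := by rintro rfl; rw [mul_zero] at hga; exact hq0 hga.symm
  have hb0 : b ≠ 0 := by rintro rfl; rw [mul_zero] at hgb; exact hq'0 hgb.symm
  have h3 : (g * a).IsHomogeneous 2 := by rw [hga]; exact hq
  obtain ⟨i, e, hie, hgi, hae⟩ := hom_of_mul h3 (by rw [hga]; exact hq0)
  have h4 : (g * b).IsHomogeneous 2 := by rw [hgb]; exact hq'
  have hbe := (hom_quot h4 hgi (by rw [hgb]; exact hq'0)).2
  have hfS := finite_ST (K := K) d
  have hfR : FiniteDimensional K R := Submodule.finiteDimensional_of_le hR.le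
  have hle : mulC (g * a) (fun m => d m - 2) ⊔ mulC (g * b) (fun m => d m - 2) ≤ R := by
    rw [hga, hgb]; exact sup_le h1 h2
  have h5 := fun m => sup_mulS' hg0 hab hae ha0 hb0 (d m - 2)
  have h6 := Submodule.finrank_mono hle
  have hdim := hR.dim
  have hS := finrank_ST (K := K) d
  have hsup : Module.finrank K (mulC (g * a) (fun m => d m - 2) ⊔
      mulC (g * b) (fun m => d m - 2) : Submodule K (T3 K c)) =
      ∑ m, Module.finrank K (mulS (g * a) (d m - 2) ⊔ mulS (g * b) (d m - 2) :
        Submodule K (MvPolynomial (Fin 3) K)) := by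
    rw [sup_mulC_eq, finrank_piS]
  have hi : i = 0 ∨ i = 1 ∨ i = 2 := by omega
  rcases hi with rfl | rfl | rfl
  · -- coprime
    exfalso
    have : e = 2 := by omega
    subst this
    have h7 : ∀ m, (d m + 2).choose 2 ≤ Module.finrank K (mulS (g * a) (d m - 2) ⊔
        mulS (g * b) (d m - 2) : Submodule K (MvPolynomial (Fin 3) K)) + 4 := by
      intro m
      have h8 := h5 m
      obtain ⟨r, hr⟩ : ∃ r, d m = r + 2 := ⟨d m - 2, by have := hTy.two m; omega⟩
      rw [hr] at h8 ⊢
      rw [Nat.add_sub_cancel] at h8 ⊢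
      have c1 := choose_two (r + 2)
      have c2 := choose_two r
      by_cases hr2 : 2 ≤ r
      · rw [if_pos hr2] at h8
        obtain ⟨s, rfl⟩ : ∃ s, r = s + 2 := ⟨r - 2, by omega⟩
        have c3 := choose_two s
        rw [Nat.add_sub_cancel] at h8
        nlinarith
      · rw [if_neg hr2] at h8
        have : r = 0 ∨ r = 1 := by omega
        rcases this with rfl | rfl
        · omega
        · omega
    have h8 : ∑ m, (d m + 2).choose 2 ≤ ∑ m, (Module.finrank K (mulS (g * a) (d m - 2) ⊔
        mulS (g * b) (d m - 2) : Submodule K (MvPolynomial (Fin 3) K)) + 4) :=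
      Finset.sum_le_sum fun m _ => h7 m
    rw [Finset.sum_add_distrib, Finset.sum_const, Finset.card_univ, Fintype.card_fin,
      smul_eq_mul, ← hsup, ← hS] at h8
    omega
  · -- a common linear form
    exfalso
    have : e = 1 := by omega
    subst this
    have h7 : ∀ m, (d m + 2).choose 2 ≤ Module.finrank K (mulS (g * a) (d m - 2) ⊔
        mulS (g * b) (d m - 2) : Submodule K (MvPolynomial (Fin 3) K)) + (d m + 2) := by
      intro m
      have h8 := h5 m
      obtain ⟨r, hr⟩ : ∃ r, d m = r + 2 := ⟨d m - 2, by have := hTy.two m; omega⟩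
      rw [hr] at h8 ⊢
      rw [Nat.add_sub_cancel] at h8 ⊢
      have c1 := choose_two (r + 2)
      have c2 := choose_two r
      by_cases hr2 : 1 ≤ r
      · rw [if_pos hr2] at h8
        obtain ⟨s, rfl⟩ : ∃ s, r = s + 1 := ⟨r - 1, by omega⟩
        have c3 := choose_two s
        rw [Nat.add_sub_cancel] at h8
        nlinarith
      · rw [if_neg hr2] at h8
        have : r = 0 := by omega
        subst this
        omega
    have h8 : ∑ m, (d m + 2).choose 2 ≤ ∑ m, (Module.finrank K (mulS (g * a) (d m - 2) ⊔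
        mulS (g * b) (d m - 2) : Submodule K (MvPolynomial (Fin 3) K)) + (d m + 2)) :=
      Finset.sum_le_sum fun m _ => h7 m
    rw [Finset.sum_add_distrib, Finset.sum_add_distrib, hTy.sum, Finset.sum_const,
      Finset.card_univ, Fintype.card_fin, smul_eq_mul, ← hsup, ← hS] at h8
    have h9 : mulC (g * a) (fun m => d m - 2) ⊔ mulC (g * b) (fun m => d m - 2) = R :=
      Submodule.eq_of_le_of_finrank_le hle (by omega)
    have h10 : R ≤ mulC g (fun m => d m - 1) := by
      rw [← h9, mulC_eq, mulC_eq, mulC_eq]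
      have e1 : ∀ m, 1 + (d m - 2) = d m - 1 := fun m => by have := hTy.two m; omega
      refine sup_le ?_ ?_
      · intro u hu m hm
        have := mulS_mul_le (a := g) (i := 1) hae (d m - 2) (hu m hm)
        rwa [e1] at this
      · intro u hu m hm
        have := mulS_mul_le (a := g) (i := 1) hbe (d m - 2) (hu m hm)
        rwa [e1] at this
    have h11 := hR.line g hgi hg0
    rw [sup_eq_right.2 h10, finrank_mulC hg0, hS] at h11
    have h12 : ∑ m, (d m + 2).choose 2 = ∑ m, (d m - 1 + 2).choose 2 + ∑ m, (d m + 1) := by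
      rw [← Finset.sum_add_distrib]
      refine Finset.sum_congr rfl fun m _ => ?_
      obtain ⟨r, hr⟩ : ∃ r, d m = r + 1 := ⟨d m - 1, by have := hTy.two m; omega⟩
      rw [hr, Nat.add_sub_cancel]
      have c1 := choose_two (r + 1)
      have c2 := choose_two r
      nlinarith
    rw [h12, Finset.sum_add_distrib (f := d), hTy.sum, Finset.sum_const, Finset.card_univ,
      Fintype.card_fin, smul_eq_mul] at h11
    omega
  · have : e = 0 := by omega
    subst this
    have hbe' : b.IsHomogeneous 0 := hbe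
    have ha' : a = C (coeff 0 a) := (totalDegree_eq_zero_iff_eq_C).1
      (Nat.le_zero.1 hae.totalDegree_le)
    have hb' : b = C (coeff 0 b) := (totalDegree_eq_zero_iff_eq_C).1
      (Nat.le_zero.1 hbe'.totalDegree_le)
    have hα : coeff 0 a ≠ 0 := by
      intro h; rw [h, map_zero] at ha'; exact ha0 ha'
    refine ⟨coeff 0 b / coeff 0 a, ?_⟩
    rw [← hga, ← hgb]
    conv_lhs => rw [hb']
    conv_rhs => rw [ha']
    rw [coeff_C, if_pos rfl, mul_left_comm, ← C_mul, div_mul_cancel₀ _ hα]

end Pool.Agent.T2C.H60
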