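import Pool.Agent.Lib.MP_c7af3c_ag.T2.Base

/-!
# MP_c7af3c_ag, project T2C: the polynomials in two variables over `K` which vanish at a point
`(τ, ζ)`, `τ` transcendental over `K`, form a principal ideal (helper60)
-/

set_option autoImplicit false

namespace Pool.Agent.T2C.H60

open Polynomial

/-- the polynomials in two variables which vanish at `(τ, ζ)` form a principal ideal -/
theorem exists_gen {K Ω : Type} [Field K] [Field Ω] (φ : K[X] →+* Ω) (hφ : Function.Injective φ)
    (ζ : Ω) : ∃ h : K[X][X], ∀ f : K[X][X], f.eval₂ φ ζ = 0 ↔ h ∣ f := by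
  classical
  let F := FractionRing K[X]
  let ψ : F →+* Ω := IsFractionRing.lift hφ
  have hψ : ψ.comp (algebraMap K[X] F) = φ := by
    ext x <;> simp [ψ]
  have hev : ∀ f : K[X][X], (f.map (algebraMap K[X] F)).eval₂ ψ ζ = f.eval₂ φ ζ := by
    intro f
    rw [eval₂_map, hψ]
  -- the ideal over the field of fractions
  let I : Ideal F[X] := RingHom.ker (eval₂RingHom ψ ζ)
  obtain ⟨p, hp⟩ := (IsPrincipalIdealRing.principal I).principal
  have hI : ∀ g : F[X], g.eval₂ ψ ζ = 0 ↔ p ∣ g := by
    intro g
    have h1 : g ∈ I ↔ g.eval₂ ψ ζ = 0 := RingHom.mem_ker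
    rw [← h1, hp]
    exact Ideal.mem_span_singleton
  by_cases hp0 : p = 0
  · refine ⟨0, fun f => ?_⟩
    rw [← hev, hI, hp0, zero_dvd_iff, zero_dvd_iff]
    exact Polynomial.map_eq_zero_iff (IsFractionRing.injective K[X] F)
  · obtain ⟨b, hbM, hb⟩ := IsLocalization.integerNormalization_spec (nonZeroDivisors K[X]) p
    set q := IsLocalization.integerNormalization (nonZeroDivisors K[X]) p with hq
    have hb0 : b ≠ 0 := nonZeroDivisors.ne_zero hbM
    have hqp : q.map (algebraMap K[X] F) = C (algebraMap K[X] F b) * p := by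
      rw [hb, algebra_compatible_smul F b p, smul_eq_C_mul]
    have hbu : IsUnit (C (algebraMap K[X] F b) : F[X]) :=
      isUnit_C.2 (isUnit_iff_ne_zero.2 fun h => hb0
        (IsFractionRing.injective K[X] F (by rw [h, map_zero])))
    have hq0 : q ≠ 0 := by
      intro h
      rw [h, Polynomial.map_zero] at hqp
      rcases mul_eq_zero.1 hqp.symm with h2 | h2
      · rw [h2] at hbu; exact not_isUnit_zero hbu
      · exact hp0 h2
    have hcu : IsUnit (C (algebraMap K[X] F q.content) : F[X]) :=
      isUnit_C.2 (isUnit_iff_ne_zero.2 fun h => hq0 (content_eq_zero_iff.1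
        (IsFractionRing.injective K[X] F (by rw [h, map_zero]))))
    have hass : Associated (q.primPart.map (algebraMap K[X] F)) p := by
      have h1 : q.map (algebraMap K[X] F) = C (algebraMap K[X] F q.content) *
          q.primPart.map (algebraMap K[X] F) := by
        conv_lhs => rw [q.eq_C_content_mul_primPart]
        rw [Polynomial.map_mul, map_C]
      refine (associated_unit_mul_left _ _ hcu).symm.trans ?_
      rw [← h1, hqp]
      exact associated_unit_mul_left _ _ hbu
    refine ⟨q.primPart, fun f => ?_⟩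
    rw [← hev, hI, ← hass.dvd_iff_dvd_left]
    exact ⟨fun h => IsPrimitive.dvd_of_fraction_map_dvd_fraction_map q.isPrimitive_primPart h,
      fun h => Polynomial.map_dvd _ h⟩

/-- the same for a subfield and `MvPolynomial (Fin 2)` -/
theorem exists_gen2 {Ω : Type} [Field Ω] (K : Subfield Ω) (hK : T2.Rac K) (τ ζ : Ω)
    (hτ : τ ∉ K) : ∃ h : MvPolynomial (Fin 2) K, ∀ f : MvPolynomial (Fin 2) K,
      MvPolynomial.eval ![τ, ζ] (MvPolynomial.map K.subtype f) = 0 ↔ h ∣ f := by
  let φ : K[X] →+* Ω := Polynomial.eval₂RingHom K.subtype τ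
  have hφ : Function.Injective φ := by
    rw [injective_iff_map_eq_zero]
    intro p hp
    by_contra hp0
    refine hτ (hK τ (p.map K.subtype) ?_ ?_ ?_)
    · exact (Polynomial.map_ne_zero_iff K.subtype.injective).2 hp0
    · intro i
      rw [Polynomial.coeff_map]
      exact (p.coeff i).2
    · rw [Polynomial.eval_map]; exact hp
  obtain ⟨h₀, hh⟩ := exists_gen φ hφ ζ
  let E := Polynomial.Bivariate.equivMvPolynomial K
  have hE : ∀ f : K[X][X], f.eval₂ φ ζ =
      MvPolynomial.eval ![τ, ζ] (MvPolynomial.map K.subtype (E f)) := by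
    intro f
    have h1 : (Polynomial.eval₂RingHom φ ζ) = ((MvPolynomial.eval ![τ, ζ]).comp
        (MvPolynomial.map K.subtype)).comp (E : K[X][X] →+* MvPolynomial (Fin 2) K) := by
      ext x
      · simp [φ, E]
      · simp [φ, E]
      · simp [E]
    exact congrArg (fun g : K[X][X] →+* Ω => g f) h1
  refine ⟨E h₀, fun f => ?_⟩
  obtain ⟨g, rfl⟩ := E.surjective f
  rw [← hE, hh]
  exact (map_dvd_iff E).symm

end Pool.Agent.T2C.H60
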