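import Pool.Agent.Lib.MP_c7af3c_ag.T2.Base

/-!
# MP_c7af3c_ag, project T2C: weighted degrees of polynomials in two variables (helper60)
`wd w f` is the largest weight `I 0 * w 0 + I 1 * w 1` of a monomial of `f`; it is additive.
-/

set_option autoImplicit false

namespace Pool.Agent.T2C.H60

section

variable {L : Type} [Field L] (w : Fin 2 → ℕ)

/-- the map `X_i ↦ X_i S ^ (w i)` -/
noncomputable def wφ : MvPolynomial (Fin 2) L →+* Polynomial (MvPolynomial (Fin 2) L) :=
  MvPolynomial.eval₂Hom (Polynomial.C.comp MvPolynomial.C)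
    fun i => Polynomial.C (MvPolynomial.X i) * Polynomial.X ^ w i

/-- the weight of a monomial -/
def wt (I : Fin 2 →₀ ℕ) : ℕ := I 0 * w 0 + I 1 * w 1

theorem wφ_monomial (J : Fin 2 →₀ ℕ) (a : L) : wφ w (MvPolynomial.monomial J a) =
    Polynomial.C (MvPolynomial.monomial J a) * Polynomial.X ^ wt w J := by
  unfold wφ
  rw [MvPolynomial.coe_eval₂Hom, MvPolynomial.eval₂_monomial, Finsupp.prod_fintype _ _
    (fun i => by rw [pow_zero]), Fin.prod_univ_two, MvPolynomial.monomial_eq,
    Finsupp.prod_fintype _ _ (fun i => by rw [pow_zero]), Fin.prod_univ_two]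
  simp only [RingHom.comp_apply, map_mul, map_pow, wt]
  ring

theorem coeff_wφ (f : MvPolynomial (Fin 2) L) (k : ℕ) (I : Fin 2 →₀ ℕ) :
    MvPolynomial.coeff I ((wφ w f).coeff k) =
      if wt w I = k then MvPolynomial.coeff I f else 0 := by
  classical
  induction f using MvPolynomial.induction_on' with
  | monomial J a =>
    rw [wφ_monomial, Polynomial.coeff_C_mul, Polynomial.coeff_X_pow, MvPolynomial.coeff_monomial]
    by_cases hJ : J = I
    · subst hJ
      by_cases hk : wt w J = k
      · rw [if_pos hk, if_pos hk.symm, if_pos rfl, mul_one, MvPolynomial.coeff_monomial,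
          if_pos rfl]
      · rw [if_neg hk, if_neg (Ne.symm hk), mul_zero, MvPolynomial.coeff_zero]
    · rw [if_neg hJ, ite_self]
      by_cases hk : k = wt w J
      · rw [if_pos hk, mul_one, MvPolynomial.coeff_monomial, if_neg hJ]
      · rw [if_neg hk, mul_zero, MvPolynomial.coeff_zero]
  | add p q hp hq =>
    rw [map_add, Polynomial.coeff_add, MvPolynomial.coeff_add, hp, hq, MvPolynomial.coeff_add]
    split_ifs
    · rfl
    · rw [add_zero]

/-- the weighted degree -/
noncomputable def wd (f : MvPolynomial (Fin 2) L) : ℕ := (wφ w f).natDegree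

theorem wφ_inj : Function.Injective (wφ (L := L) w) := by
  rw [injective_iff_map_eq_zero]
  intro f hf
  ext I
  have := coeff_wφ w f (wt w I) I
  rw [if_pos rfl, hf, Polynomial.coeff_zero, MvPolynomial.coeff_zero] at this
  rw [← this, MvPolynomial.coeff_zero]

theorem wd_mul {f g : MvPolynomial (Fin 2) L} (hf : f ≠ 0) (hg : g ≠ 0) :
    wd w (f * g) = wd w f + wd w g := by
  unfold wd
  rw [map_mul, Polynomial.natDegree_mul]
  · exact fun h => hf (wφ_inj w (by rw [h, map_zero]))
  · exact fun h => hg (wφ_inj w (by rw [h, map_zero]))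

theorem wd_le_iff {f : MvPolynomial (Fin 2) L} {e : ℕ} :
    wd w f ≤ e ↔ ∀ I, MvPolynomial.coeff I f ≠ 0 → wt w I ≤ e := by
  unfold wd
  rw [Polynomial.natDegree_le_iff_coeff_eq_zero]
  constructor
  · intro h I hI
    by_contra hlt
    have h1 := coeff_wφ w f (wt w I) I
    rw [if_pos rfl, h _ (not_le.1 hlt), MvPolynomial.coeff_zero] at h1
    exact hI h1.symm
  · intro h k hk
    ext I
    rw [coeff_wφ, MvPolynomial.coeff_zero]
    by_cases hI : wt w I = k
    · rw [if_pos hI]
      by_contra h0
      have := h I h0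
      omega
    · rw [if_neg hI]

theorem wt_le_wd {f : MvPolynomial (Fin 2) L} {I : Fin 2 →₀ ℕ}
    (hI : MvPolynomial.coeff I f ≠ 0) : wt w I ≤ wd w f := (wd_le_iff w).1 le_rfl I hI

/-- the weighted degree does not depend on the field -/
theorem wd_map {L' : Type} [Field L'] (φ : L →+* L') (f : MvPolynomial (Fin 2) L) :
    wd w (MvPolynomial.map φ f) = wd w f := by
  apply le_antisymm
  · rw [wd_le_iff]
    intro I hI
    rw [MvPolynomial.coeff_map] at hI
    exact wt_le_wd w fun h => hI (by rw [h, map_zero])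
  · rw [wd_le_iff]
    intro I hI
    refine wt_le_wd w ?_
    rw [MvPolynomial.coeff_map]
    exact fun h => hI (φ.injective (by rw [h, map_zero]))

end

end Pool.Agent.T2C.H60
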