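import Pool.Agent.Lib.MP_c7af3c_ag.T2C.NO3.Iface
import Pool.Agent.Lib.MP_c7af3c_ag.T2C.H60.Gen2
import Pool.Agent.Lib.MP_c7af3c_ag.T2C.H60.Wt

/-!
# MP_c7af3c_ag, project T2C, row N3UC: a common factor, rank 3 (helper60)
-/

set_option autoImplicit false

namespace Pool.Agent.T2C.H60

open MvPolynomial Pool.Agent.T2C.NO3

theorem mem_wtd {L : Type} [Field L] {e : ℕ} {f : MvPolynomial (Fin 2) L} :
    f ∈ wtd L e ↔ wd ![1, 2] f ≤ e := by
  rw [wd_le_iff]
  unfold wtd
  rw [mem_restrictSupport_iff]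
  constructor
  · intro h I hI
    have := h (mem_support_iff.2 hI)
    have h2 : I 0 + 2 * I 1 ≤ e := this
    show I 0 * 1 + I 1 * 2 ≤ e
    omega
  · intro h I hI
    have := h I (mem_support_iff.1 hI)
    have h2 : I 0 * 1 + I 1 * 2 ≤ e := this
    show I 0 + 2 * I 1 ≤ e
    omega

/-- the exponents of weight at most two -/
theorem small_exp (I : Fin 2 →₀ ℕ) (h : I 0 + 2 * I 1 ≤ 2) : I = 0 ∨ I = Finsupp.single 0 1 ∨
    I = Finsupp.single 0 2 ∨ I = Finsupp.single 1 1 := by
  have key : ∀ J : Fin 2 →₀ ℕ, I 0 = J 0 → I 1 = J 1 → I = J := by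
    intro J h0 h1
    ext i
    fin_cases i
    · exact h0
    · exact h1
  have h2 : I 1 ≤ 1 := by omega
  rcases Nat.le_one_iff_eq_zero_or_eq_one.1 h2 with h1 | h1
  · rw [h1] at h
    have h3 : I 0 = 0 ∨ I 0 = 1 ∨ I 0 = 2 := by omega
    rcases h3 with h0 | h0 | h0
    · exact Or.inl (key _ (by simp [h0]) (by simp [h1]))
    · exact Or.inr (Or.inl (key _ (by simp [h0]) (by simp [h1])))
    · exact Or.inr (Or.inr (Or.inl (key _ (by simp [h0]) (by simp [h1]))))
  · rw [h1] at h
    have h0 : I 0 = 0 := by omega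
    exact Or.inr (Or.inr (Or.inr (key _ (by simp [h0]) (by simp [h1]))))

/-- a polynomial of weight at most two is a combination of `1, T, T ^ 2, W` -/
theorem wtd_two {L : Type} [Field L] {f : MvPolynomial (Fin 2) L} (hf : wd ![1, 2] f ≤ 2) :
    f = C (coeff 0 f) + C (coeff (Finsupp.single 0 1) f) * X 0 +
      C (coeff (Finsupp.single 0 2) f) * X 0 ^ 2 + C (coeff (Finsupp.single 1 1) f) * X 1 := by
  classical
  let s : Finset (Fin 2 →₀ ℕ) := {0, Finsupp.single 0 1, Finsupp.single 0 2, Finsupp.single 1 1}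
  have hsub : f.support ⊆ s := by
    intro I hI
    have h1 := (wd_le_iff _).1 hf I (mem_support_iff.1 hI)
    have h2 : I 0 * 1 + I 1 * 2 ≤ 2 := h1
    rcases small_exp I (by omega) with h | h | h | h <;> simp [s, h]
  have h1 : f = ∑ I ∈ s, monomial I (coeff I f) := by
    conv_lhs => rw [f.as_sum]
    refine Finset.sum_subset hsub fun I _ hI => ?_
    rw [notMem_support_iff.1 hI, map_zero]
  have e1 : (0 : Fin 2 →₀ ℕ) ∉ ({Finsupp.single 0 1, Finsupp.single 0 2, Finsupp.single 1 1} :
      Finset (Fin 2 →₀ ℕ)) := by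
    simp only [Finset.mem_insert, Finset.mem_singleton, not_or]
    refine ⟨fun h => ?_, fun h => ?_, fun h => ?_⟩
    · have := DFunLike.congr_fun h 0; simp at this
    · have := DFunLike.congr_fun h 0; simp at this
    · have := DFunLike.congr_fun h 1; simp at this
  have e2 : (Finsupp.single 0 1 : Fin 2 →₀ ℕ) ∉ ({Finsupp.single 0 2, Finsupp.single 1 1} :
      Finset (Fin 2 →₀ ℕ)) := by
    simp only [Finset.mem_insert, Finset.mem_singleton, not_or]
    refine ⟨fun h => ?_, fun h => ?_⟩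
    · have := DFunLike.congr_fun h 0; simp at this
    · have := DFunLike.congr_fun h 0; simp at this
  have e3 : (Finsupp.single 0 2 : Fin 2 →₀ ℕ) ∉ ({Finsupp.single 1 1} :
      Finset (Fin 2 →₀ ℕ)) := by
    simp only [Finset.mem_singleton]
    intro h
    have := DFunLike.congr_fun h 0; simp at this
  conv_lhs => rw [h1]
  show ∑ I ∈ ({0, Finsupp.single 0 1, Finsupp.single 0 2, Finsupp.single 1 1} :
    Finset (Fin 2 →₀ ℕ)), _ = _
  rw [Finset.sum_insert e1, Finset.sum_insert e2, Finset.sum_insert e3, Finset.sum_singleton]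
  rw [← C_mul_X_pow_eq_monomial (s := (0 : Fin 2)) (n := 1),
    ← C_mul_X_pow_eq_monomial (s := (0 : Fin 2)) (n := 2),
    ← C_mul_X_pow_eq_monomial (s := (1 : Fin 2)) (n := 1), pow_one, pow_one, monomial_zero']
  ring

theorem n3uc : N3UCStatement := by
  intro Ω _ _ K hK τ ζ hlin c d f hwt hcoef hev hne
  have hτ : τ ∉ K := fun h => by
    have h1 := hlin ![-τ, 1, 0, 0] (by
      intro i
      fin_cases i
      · exact K.neg_mem h
      · exact K.one_mem
      · exact K.zero_mem
      · exact K.zero_mem) (by simp)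
    exact one_ne_zero (congrFun h1 1)
  obtain ⟨h₀, hh⟩ := exists_gen2 K hK τ ζ hτ
  have hF : ∀ m, ∃ F : MvPolynomial (Fin 2) K, MvPolynomial.map K.subtype F = f m := by
    intro m
    have h1 : f m ∈ Set.range (MvPolynomial.map (σ := Fin 2) K.subtype) := by
      rw [mem_range_map_iff_coeffs_subset]
      intro x hx
      obtain ⟨I, -, rfl⟩ := mem_coeffs_iff.1 hx
      exact ⟨⟨_, hcoef m I⟩, rfl⟩
    exact h1
  choose F hF using hF
  have hdvd : ∀ m, h₀ ∣ F m := fun m => (hh (F m)).1 (by rw [hF]; exact hev m)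
  choose G hG using hdvd
  obtain ⟨m1, hm1⟩ := hne
  have hh0 : h₀ ≠ 0 := by
    intro h
    apply hm1
    rw [← hF, hG m1, h, zero_mul, map_zero]
  have hwF : ∀ m, wd ![1, 2] (F m) ≤ 2 * d m := by
    intro m
    rw [← wd_map ![1, 2] K.subtype, hF]
    exact mem_wtd.1 (hwt m)
  have hwG : ∀ m, G m ≠ 0 → wd ![1, 2] h₀ + wd ![1, 2] (G m) ≤ 2 * d m := by
    intro m hm
    rw [← wd_mul ![1, 2] hh0 hm, ← hG]
    exact hwF m
  refine ⟨wd ![1, 2] h₀, MvPolynomial.map K.subtype h₀, fun m => MvPolynomial.map K.subtype (G m),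
    ?_, ?_, ?_, ?_, ?_, ?_⟩
  · by_contra hlt
    have h1 := wtd_two (f := h₀) (by omega)
    have h2 := (hh h₀).2 dvd_rfl
    rw [h1] at h2
    simp only [map_add, map_mul, map_pow, map_C, map_X, eval_C, eval_X] at h2
    have h3 := hlin ![(coeff 0 h₀ : K), (coeff (Finsupp.single 0 1) h₀ : K),
      (coeff (Finsupp.single 0 2) h₀ : K), (coeff (Finsupp.single 1 1) h₀ : K)] (by
        intro i
        fin_cases i
        · exact (coeff 0 h₀).2
        · exact (coeff (Finsupp.single 0 1) h₀).2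
        · exact (coeff (Finsupp.single 0 2) h₀).2
        · exact (coeff (Finsupp.single 1 1) h₀).2) (by
        have : ∀ x : K, K.subtype x = (x : Ω) := fun _ => rfl
        simp only [this] at h2
        simpa using h2)
    apply hh0
    have c0 : coeff 0 h₀ = 0 := Subtype.ext (congrFun h3 0)
    have c1 : coeff (Finsupp.single 0 1) h₀ = 0 := Subtype.ext (congrFun h3 1)
    have c2 : coeff (Finsupp.single 0 2) h₀ = 0 := Subtype.ext (congrFun h3 2)
    have c3 : coeff (Finsupp.single 1 1) h₀ = 0 := Subtype.ext (congrFun h3 3)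
    rw [h1, c0, c1, c2, c3]
    simp
  · rw [mem_wtd, wd_map]
  · intro h
    exact hh0 (map_injective _ K.subtype.injective (by rw [h, map_zero]))
  · intro m
    rw [← map_mul, ← hG, hF]
  · intro m
    show MvPolynomial.map K.subtype (G m) ∈ _
    by_cases hm : G m = 0
    · rw [hm, map_zero]; exact Submodule.zero_mem _
    · rw [mem_wtd, wd_map]
      have := hwG m hm
      omega
  · intro m hlt
    show MvPolynomial.map K.subtype (G m) = 0
    by_cases hm : G m = 0
    · rw [hm, map_zero]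
    · have := hwG m hm
      omega

end Pool.Agent.T2C.H60
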